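import Pool.Agent.U645.VB.Ind
import Pool.Agent.U402.VB.B
import Pool.Agent.U454.VB.D
import Pool.Agent.U908.VB.K

/-!
# Variance-balanced designs with block size three and no repeated blocks: all pairs `(v, λ)`

A block is a multiset of three points which are not all equal. A `VB(v,3,λ)` design without repeated
blocks is a set of blocks such that the concurrence `∑ n_{iB} n_{jB}` of every two distinct points is
`λ`. We prove that for `v ≥ 2` and `λ ≥ 1` such a design exists if and only if

* `λ ≤ v + 2`,
* `λ (v - 1)` is even,
* `v ≡ 1, 3 (mod 6)` if `λ = 1` or `λ = v + 1`.

Proof. A design without repeated blocks is the same as a set `T` of 3-subsets of the points such that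
the number of the members of `T` through each pair is `λ`, `λ - 2` or `λ - 4`, because the blocks
`[a,a,b]` and `[a,b,b]` can be used to add `0`, `2` or `4` to the concurrence of `a` and `b`. The
complement of `T` has the same property for `v + 2 - λ`; this gives the case `λ = v + 1` from `λ = 1`
(Steiner triple systems; Kirkman's theorem is proved by the constructions of Bose and Skolem), and it
remains to find `T` for about half of the values of `λ`. Let the point set be the union of the sets `A`
and `B`, where `|A|` is even and the complete graph on `A` is the union of the perfect matchings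
`F_1, ..., F_{|A| - 1}`. Let `G` be a bipartite graph on `B` and the set of the matchings, all of whose
degrees belong to `{λ, λ - 2, λ - 4}`. Take the triples `{x, y, b}` such that `b` is joined in `G` to the
matching which contains `xy`, and a set of triples of `B` which has the property by induction. Then the
pairs in `A`, the pairs in `B` and the mixed pairs have the property. With `|A| - |B| ∈ {-1, 0, 1, 2}`,
according to the residue of `v` mod `4`, suitable graphs `G` are explicit modifications of circulants.

Kirkman's theorem is by helper908 (`Pool/Agent/U908/VB/K.lean`), the bipartite graphs by helper402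
(`Pool/Agent/U402/VB/B.lean`), the translation to sets of triples by helper454
(`Pool/Agent/U454/VB/D.lean`).
-/

set_option autoImplicit false

open Finset

namespace Pool.Agent.Results.MP_588841_co.NoRepeatedBlocks

/-- A block with three places: a multiset of three points which are not all equal. -/
def IsBlock {v : ℕ} (B : Multiset (Fin v)) : Prop :=
  Multiset.card B = 3 ∧ ∃ a ∈ B, ∃ b ∈ B, a ≠ b

/-- `D` is the set of the blocks of a `VB(v,3,l)` design without repeated blocks: every two distinct
points have the concurrence `l`. -/
def IsVB (v l : ℕ) (D : Finset (Multiset (Fin v))) : Prop :=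
  (∀ B ∈ D, IsBlock B) ∧ ∀ i j : Fin v, i ≠ j → ∑ B ∈ D, B.count i * B.count j = l

/-- **All pairs `(v, λ)` for which there is a variance-balanced design with block size three without
repeated blocks.** -/
theorem result (v l : ℕ) (hv : 2 ≤ v) (hl : 1 ≤ l) :
    (∃ D : Finset (Multiset (Fin v)), IsVB v l D) ↔
      l ≤ v + 2 ∧ Even (l * (v - 1)) ∧ (l = 1 ∨ l = v + 1 → v % 6 = 1 ∨ v % 6 = 3) :=
  Pool.Agent.U645.VB.assembly Pool.Agent.U454.VB.D.t_D Pool.Agent.U645.VB.t_K
    Pool.Agent.U402.VB.B.t_B v l hv hl

end Pool.Agent.Results.MP_588841_co.NoRepeatedBlocks
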